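import Pool.Agent.H78.STN.Stmts

/-!
# Board `stn`, row FIN (helper44): the final assembly
-/

set_option autoImplicit false

namespace Pool.STN

theorem fin_closed : ∀ x ∈ ({1, 2, 3, 4, 5, 6, 7, 9} : Finset ℕ),
    F x ∈ ({1, 2, 3, 4, 5, 6, 7, 9} : Finset ℕ) := by decide

theorem fin_orb (x : ℕ) (hx : x ∈ ({1, 2, 3, 4, 5, 6, 7, 9} : Finset ℕ)) (j : ℕ) :
    F^[j] x ∈ ({1, 2, 3, 4, 5, 6, 7, 9} : Finset ℕ) := by
  induction j with
  | zero => simpa using hx
  | succ j ih =>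
    rw [Function.iterate_succ_apply']
    exact fin_closed _ ih

theorem FIN_thm (h1 : FEQStmt) (h2 : BIGStmt) (h3 : MIDStmt) (h4 : SMLStmt) (h5 : CHKStmt)
    (h6 : ONEStmt) (_h7 : TRIStmt) : FINStmt := by
  intro f hf m k hm hk hper hlm
  rcases Nat.eq_or_lt_of_le hm with h | hm2
  · rw [← h]; decide
  have e : ∀ i, f^[i] m = F^[i] m := fun i => (h1 f hf m hm i).1
  have hperF : F^[k] m = m := by rw [← e k]; exact hper
  have hl : lm F m k ≤ 1 := by
    unfold lm
    simpa only [e] using hlm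
  obtain ⟨s, a, b, t, ha, hb, hab, ht, hs, hasc, hF, habs⟩ := h6 m k hm2 hk hperF hl
  have h1t : (1 : ℤ) ≤ (t : ℤ) := by exact_mod_cast ht
  have habs' : |(3 : ℤ) ^ (a + b) - 2 ^ (2 * a + b)| < 4 ^ a := by
    have e1 : |(3 : ℤ) ^ (a + b) * t - 2 ^ (2 * a + b) * t| =
        |(3 : ℤ) ^ (a + b) - 2 ^ (2 * a + b)| * t := by
      rw [← sub_mul, abs_mul, abs_of_nonneg (by omega : (0 : ℤ) ≤ (t : ℤ))]
    rw [e1] at habs
    have := mul_le_mul_of_nonneg_left h1t (abs_nonneg ((3 : ℤ) ^ (a + b) - 2 ^ (2 * a + b)))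
    linarith
  have hbig := h2 a b ha hb habs'
  have hmid := h3 a b ha hb habs' hbig
  have hsml := h4 a b ha hb hmid habs'
  have hchk := h5 a b t hsml ht habs hasc hF
  have hsS : F^[s] m ∈ ({1, 2, 3, 4, 5, 6, 7, 9} : Finset ℕ) := by
    rw [hs]
    rcases hchk with h | h <;> rw [h] <;> decide
  have hm' : F^[k * s] m = m := by
    rw [Function.iterate_mul]
    exact Function.iterate_fixed hperF s
  have hks : k * s - s + s = k * s := Nat.sub_add_cancel (Nat.le_mul_of_pos_left s hk)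
  have hfin : F^[k * s - s] (F^[s] m) = m := by
    rw [← Function.iterate_add_apply, hks, hm']
  rw [← hfin]
  exact fin_orb _ hsS _

end Pool.STN
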